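import Pool.Agent.Helper81.JN.Final

/-!
# The Stanley-Reisner ideal of the `n`-cycle has a polytopal minimal free resolution

For every `n ≥ 4` an explicit `(n - 3)`-dimensional polytope, with one vertex for each diagonal of
the `n`-gon, supports a minimal free resolution of `J_n`.
-/

namespace Pool.Agent.Results.MP_b816f8_co.PolytopalResolution

open Pool.Helper81.JN

theorem result (n : ℕ) (hn : 4 ≤ n) :
    ∃ v : Diag n → (Fin (n - 3) → ℝ),
      SupportsMinimalResolution v ∧ affineSpan ℝ (Set.range v) = ⊤ :=
  ⟨vv n, supports hn, affineSpan_top hn⟩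

end Pool.Agent.Results.MP_b816f8_co.PolytopalResolution
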